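import Mathlib
import Pool.Agent.Helper78.CA.NearSec

/-!
# Confluent maps of arc-like continua have approximate sections, and their images are arc-like

Let `X` be an arc-like continuum and `f` a confluent map of `X` onto a continuum `Y`.  For every continuous map `w` of `X` to a
normed space there is a continuous map `s` of `Y` to this space such that, up to a small error, every `s y` is a value of `w` at a
point of the fibre over `y`; over a proper subcontinuum one may prescribe the value over one point of the source.  If `w` is the
embedding of `X` in a normed space, then `s` is an approximate right inverse of `f`; if `w` is a map of `X` to the interval with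
small fibres, then so is `s`, hence `Y` is arc-like.
-/

set_option autoImplicit false

namespace Pool.Agent.Results.MP_05c474_gt.ApproximateSections

/-- For every `ε > 0` there is a continuous map to `[0, 1]` all of whose fibres have diameter `< ε`. -/
def ArcLike (X : Type) [MetricSpace X] : Prop :=
  ∀ ε : ℝ, 0 < ε → ∃ g : X → ℝ, Continuous g ∧ Set.range g ⊆ Set.Icc 0 1 ∧ ∀ t : ℝ, Metric.diam (g ⁻¹' {t}) < ε

/-- `f` maps every component of the preimage of every subcontinuum `K` onto `K`. -/
def Confluent {X Y : Type} [TopologicalSpace X] [TopologicalSpace Y] (f : X → Y) : Prop :=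
  ∀ K : Set Y, IsCompact K → IsConnected K → ∀ x ∈ f ⁻¹' K, f '' connectedComponentIn (f ⁻¹' K) x = K

theorem result :
    ∀ (X Y : Type) [MetricSpace X] [CompactSpace X] [ConnectedSpace X]
      [MetricSpace Y] [CompactSpace Y] [ConnectedSpace Y] (f : X → Y),
      ArcLike X → Continuous f → Function.Surjective f → Confluent f →
      (∀ (E : Type) [NormedAddCommGroup E] [NormedSpace ℝ E] (w : X → E) (ε : ℝ), Continuous w → 0 < ε →
        (∃ s : Y → E, Continuous s ∧ ∀ y, ∃ x, dist (f x) y < ε ∧ ‖w x - s y‖ < ε) ∧
        (∀ K : Set Y, IsCompact K → IsConnected K → K ≠ Set.univ → ∀ x₀, f x₀ ∈ K →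
          ∃ s : Y → E, Continuous s ∧ s (f x₀) = w x₀ ∧ ∀ y ∈ K, ∃ x, dist (f x) y < ε ∧ ‖w x - s y‖ < ε)) ∧
      ArcLike Y := by
  intro X Y _ _ _ _ _ _ f hX hf hsurj hconf
  exact ⟨fun E _ _ w ε hw hε => CArc.near_sections hX hf hsurj hconf hw hε, CArc.arclike_image hX hf hsurj hconf⟩

end Pool.Agent.Results.MP_05c474_gt.ApproximateSections
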